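import Pool.Agent.Run7.h523.KF.Iface3

/-! Piece GP2 of project KF (helper523, MP_6d896a_gt). -/

set_option autoImplicit false
set_option linter.unusedSectionVars false
set_option linter.unusedVariables false

namespace Run7.h523.KF

open MeasureTheory Set Filter Topology
open scoped ENNReal

namespace GP2P

/-! ### inequalities on the line -/

/-- the segment -/
def TT (ε p r : ℝ) : Set ℝ := {t | p < ε * t ∧ ε * t < r}

theorem meas_TT (ε p r : ℝ) : MeasurableSet (TT ε p r) :=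
  (measurableSet_lt measurable_const (measurable_const.mul measurable_id)).inter
    (measurableSet_lt (measurable_const.mul measurable_id) measurable_const)

theorem abs_eps {ε : ℝ} (hε : ε = 1 ∨ ε = -1) (t : ℝ) (h : 0 ≤ ε * t) : |t| = ε * t := by
  rcases hε with rfl | rfl
  · rw [one_mul] at *
    exact abs_of_nonneg h
  · rw [abs_of_nonpos (by linarith)]
    ring

theorem eps_sq {ε : ℝ} (hε : ε = 1 ∨ ε = -1) (a : ℝ) : ε * (ε * a) = a := by
  rcases hε with rfl | rfl <;> ring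

theorem line_a (φ : ℝ → ℝ) (hm : Measurable φ) (h0 : ∀ t, 0 ≤ φ t)
    (hφ : ∀ t1 t2, |t1| ≤ |t2| → φ t2 ≤ φ t1) (ε p r g : ℝ) (hε : ε = 1 ∨ ε = -1) (hp : 0 ≤ p)
    (hg : 0 ≤ g) :
    ∫⁻ t, (TT ε p r).indicator (fun t => ENNReal.ofReal ((ε * t - p) * g * φ t)) t ≤
      ∫⁻ t, (TT ε p r).indicator (fun t => ENNReal.ofReal ((r - ε * t) * g * φ t)) t := by
  set H1 : ℝ → ℝ≥0∞ := (TT ε p r).indicator (fun t => ENNReal.ofReal ((ε * t - p) * g * φ t))
    with hH1
  set H2 : ℝ → ℝ≥0∞ := (TT ε p r).indicator (fun t => ENNReal.ofReal ((r - ε * t) * g * φ t))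
    with hH2
  have m1 : Measurable H1 := Measurable.indicator (by fun_prop) (meas_TT ε p r)
  have m2 : Measurable H2 := Measurable.indicator (by fun_prop) (meas_TT ε p r)
  set c : ℝ := ε * (p + r) with hc
  have hcT : ∀ t, ε * (c - t) = p + r - ε * t := fun t => by
    rw [mul_sub, hc, eps_sq hε]
  have hmem : ∀ t, t ∈ TT ε p r ↔ c - t ∈ TT ε p r := by
    intro t
    simp only [TT, mem_ofPred_eq, hcT]
    constructor
    · rintro ⟨h1, h2⟩
      constructor <;> linarith
    · rintro ⟨h1, h2⟩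
      constructor <;> linarith
  have key : ∀ t, H1 t + H1 (c - t) ≤ H2 t + H2 (c - t) := by
    intro t
    by_cases ht : t ∈ TT ε p r
    · have ht' := (hmem t).1 ht
      rw [hH1, hH2, indicator_of_mem ht, indicator_of_mem ht', indicator_of_mem ht,
        indicator_of_mem ht', hcT]
      obtain ⟨a1, a2⟩ := ht
      have q1 := h0 t
      have q2 := h0 (c - t)
      have b1 : 0 ≤ ε * t - p := by linarith
      have b2 : 0 ≤ r - ε * t := by linarith
      have e1 : p + r - ε * t - p = r - ε * t := by ring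
      have e2 : r - (p + r - ε * t) = ε * t - p := by ring
      rw [e1, e2, ← ENNReal.ofReal_add (by positivity) (by positivity),
        ← ENNReal.ofReal_add (by positivity) (by positivity)]
      apply ENNReal.ofReal_le_ofReal
      have hA : |t| = ε * t := abs_eps hε t (by linarith)
      have hB : |c - t| = p + r - ε * t := by
        rw [← hcT]
        exact abs_eps hε _ (by rw [hcT]; linarith)
      have hfin : 0 ≤ g * ((2 * (ε * t) - p - r) * (φ (c - t) - φ t)) := by
        apply mul_nonneg hg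
        rcases le_total (2 * (ε * t)) (p + r) with h | h
        · have := hφ t (c - t) (by rw [hA, hB]; linarith)
          exact mul_nonneg_of_nonpos_of_nonpos (by linarith) (by linarith)
        · have := hφ (c - t) t (by rw [hA, hB]; linarith)
          exact mul_nonneg (by linarith) (by linarith)
      have e3 : (r - ε * t) * g * φ t + (ε * t - p) * g * φ (c - t) -
          ((ε * t - p) * g * φ t + (r - ε * t) * g * φ (c - t)) =
          g * ((2 * (ε * t) - p - r) * (φ (c - t) - φ t)) := by ring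
      linarith
    · have ht' : c - t ∉ TT ε p r := fun h => ht ((hmem t).2 h)
      rw [hH1, hH2, indicator_of_notMem ht, indicator_of_notMem ht', indicator_of_notMem ht,
        indicator_of_notMem ht']
  have hsum : (∫⁻ t, H1 t) + ∫⁻ t, H1 t ≤ (∫⁻ t, H2 t) + ∫⁻ t, H2 t := by
    calc (∫⁻ t, H1 t) + ∫⁻ t, H1 t = (∫⁻ t, H1 t) + ∫⁻ t, H1 (c - t) := by
          rw [lintegral_sub_left_eq_self H1 c]
      _ = ∫⁻ t, (H1 t + H1 (c - t)) := (lintegral_add_left m1 _).symm
      _ ≤ ∫⁻ t, (H2 t + H2 (c - t)) := lintegral_mono key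
      _ = (∫⁻ t, H2 t) + ∫⁻ t, H2 (c - t) := lintegral_add_left m2 _
      _ = (∫⁻ t, H2 t) + ∫⁻ t, H2 t := by rw [lintegral_sub_left_eq_self H2 c]
  by_contra hcon
  rw [not_le] at hcon
  exact absurd hsum (not_le.2 (ENNReal.add_lt_add hcon hcon))

theorem line_b (φ : ℝ → ℝ) (hm : Measurable φ) (h0 : ∀ t, 0 ≤ φ t)
    (hφ : ∀ t1 t2, |t1| ≤ |t2| → φ t2 ≤ φ t1) (ε p r : ℝ) (hε : ε = 1 ∨ ε = -1) (hp : 0 ≤ p) :
    ∫⁻ t, (TT ε p r).indicator (fun t => ENNReal.ofReal ((ε * t - p) * (ε * t - p) * φ t)) t ≤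
      8 * ∫⁻ t, (TT ε p r).indicator
        (fun t => ENNReal.ofReal ((ε * t - p) * (r - ε * t) * φ t)) t := by
  set H1 : ℝ → ℝ≥0∞ :=
    (TT ε p r).indicator (fun t => ENNReal.ofReal ((ε * t - p) * (ε * t - p) * φ t)) with hH1
  set H2 : ℝ → ℝ≥0∞ :=
    (TT ε p r).indicator (fun t => ENNReal.ofReal ((ε * t - p) * (r - ε * t) * φ t)) with hH2
  have m2 : Measurable H2 := Measurable.indicator (by fun_prop) (meas_TT ε p r)
  have hch : ∫⁻ t, H2 t = ENNReal.ofReal (1 / 2) * ∫⁻ t, H2 (1 / 2 * (t + ε * p)) := by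
    conv_lhs => rw [← Real.smul_map_volume_mul_left (a := 1 / 2) (by norm_num)]
    rw [lintegral_smul_measure, lintegral_map m2 (by fun_prop), smul_eq_mul,
      abs_of_pos (by norm_num : (0 : ℝ) < 1 / 2),
      ← lintegral_add_right_eq_self (fun t => H2 (1 / 2 * t)) (ε * p)]
  have h8 : (8 : ℝ≥0∞) * ENNReal.ofReal (1 / 2) = 4 := by
    rw [show (8 : ℝ≥0∞) = ENNReal.ofReal 8 by norm_num,
      ← ENNReal.ofReal_mul (by norm_num)]
    norm_num
  rw [hch, ← mul_assoc, h8, ← lintegral_const_mul' _ _ (by norm_num)]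
  refine lintegral_mono fun t => ?_
  by_cases ht : t ∈ TT ε p r
  · obtain ⟨a1, a2⟩ := id ht
    have e1 : ε * (1 / 2 * (t + ε * p)) = (p + ε * t) / 2 := by
      have := eps_sq hε p
      linarith
    have hk : 1 / 2 * (t + ε * p) ∈ TT ε p r := by
      simp only [TT, mem_ofPred_eq, e1]
      constructor <;> linarith
    simp only
    rw [hH1, hH2, indicator_of_mem ht, indicator_of_mem hk, e1,
      show (4 : ℝ≥0∞) = ENNReal.ofReal 4 by norm_num, ← ENNReal.ofReal_mul (by norm_num)]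
    apply ENNReal.ofReal_le_ofReal
    have hA : |t| = ε * t := abs_eps hε t (by linarith)
    have hB : |1 / 2 * (t + ε * p)| = (p + ε * t) / 2 := by
      rw [← e1]
      exact abs_eps hε _ (by rw [e1]; linarith)
    have q := hφ (1 / 2 * (t + ε * p)) t (by rw [hA, hB]; linarith)
    have q0 := h0 t
    have b1 : 0 ≤ ε * t - p := by linarith
    have b2 : 0 ≤ r - ε * t := by linarith
    have q2 := h0 (1 / 2 * (t + ε * p))
    have c1 : (ε * t - p) * (ε * t - p) * φ t ≤
        (ε * t - p) * (ε * t - p) * φ (1 / 2 * (t + ε * p)) :=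
      mul_le_mul_of_nonneg_left q (by positivity)
    have c2 : 0 ≤ (ε * t - p) * (r - ε * t) * φ (1 / 2 * (t + ε * p)) := by positivity
    have e2 : 4 * (((p + ε * t) / 2 - p) * (r - (p + ε * t) / 2) * φ (1 / 2 * (t + ε * p))) =
        (ε * t - p) * (ε * t - p) * φ (1 / 2 * (t + ε * p)) +
        2 * ((ε * t - p) * (r - ε * t) * φ (1 / 2 * (t + ε * p))) := by ring
    rw [e2]
    linarith
  · rw [hH1, indicator_of_notMem ht]
    exact zero_le

/-! ### labels -/

section lab
variable {P : Type} [Fintype P] [DecidableEq P] [Nonempty P]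

theorem sv_not {α : Type} [InvolutiveNeg α] (y : P → α) (a : P × Bool) :
    sv y (a.1, !a.2) = -sv y a := by
  rcases a with ⟨v, b⟩
  cases b <;> simp [sv]

theorem mem_Si {M : ℕ} {z : ℤ} : z ∈ Si M ↔ (-(2 * M : ℤ) < z ∧ z < 2 * M) ∧ Odd z := by
  simp [Si]

theorem level_mem {n i : ℕ} (h1 : 1 ≤ i) (h2 : i ≤ n) : (2 * (i : ℤ) - 1) ∈ Si n := by
  rw [mem_Si]
  refine ⟨⟨by omega, by omega⟩, ⟨(i : ℤ) - 1, by ring⟩⟩

theorem x_mem {x : P → ℤ} (hx : x ∈ XX P) (v : P) : x v ∈ Si (Fintype.card P) := by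
  simp only [XX, Om, Finset.mem_filter, Fintype.mem_piFinset] at hx
  exact hx.1 v

/-- the facts used on the labels -/
structure LabOK (x : P → ℤ) : Prop where
  hx : x ∈ XX P
  l1 : ∀ z ∈ Si (Fintype.card P), sv x (lab x z) = z
  l2 : ∀ a, lab x (sv x a) = a
  l3 : ∀ y ∈ Ch x, ∀ i, i < Fintype.card P → 0 < gp x y i

theorem sv_pos {x : P → ℤ} (h : LabOK x) (a : P × Bool) (ha : 0 < sv x a) :
    ∃ i : ℕ, 1 ≤ i ∧ i ≤ Fintype.card P ∧ sv x a = 2 * (i : ℤ) - 1 ∧
      ∀ y : P → ℝ, sv y a = uu x y i := by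
  have h1 : |sv x a| = |x a.1| := by
    rcases a with ⟨v, b⟩
    cases b <;> simp [sv]
  have h2 := mem_Si.1 (x_mem h.hx a.1)
  rw [abs_of_pos ha] at h1
  have h3 : Odd (sv x a) := by
    rw [h1]
    exact odd_abs.2 h2.2
  have h4 : sv x a < 2 * Fintype.card P := by
    rw [h1, abs_lt]
    exact h2.1
  obtain ⟨m, hm⟩ := h3
  refine ⟨(m + 1).toNat, by omega, by omega, by omega, fun y => ?_⟩
  have e : ((m + 1).toNat : ℤ) = m + 1 := Int.toNat_of_nonneg (by omega)
  rw [uu, if_neg (by omega), e, show 2 * (m + 1) - 1 = sv x a by omega, h.l2]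

theorem sv_cases {x : P → ℤ} (h : LabOK x) (a : P × Bool) :
    ∃ i : ℕ, 1 ≤ i ∧ i ≤ Fintype.card P ∧
      ((sv x a = 2 * (i : ℤ) - 1 ∧ ∀ y : P → ℝ, sv y a = uu x y i) ∨
      (sv x a = -(2 * (i : ℤ) - 1) ∧ ∀ y : P → ℝ, sv y a = -uu x y i)) := by
  rcases lt_trichotomy (sv x a) 0 with h0 | h0 | h0
  · have h1 : 0 < sv x (a.1, !a.2) := by
      rw [sv_not]
      omega
    obtain ⟨i, h2, h3, h4, h5⟩ := sv_pos h _ h1
    refine ⟨i, h2, h3, Or.inr ⟨?_, fun y => ?_⟩⟩
    · rw [sv_not] at h4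
      omega
    · have := h5 y
      rw [sv_not] at this
      linarith
  · exfalso
    have h2 := (mem_Si.1 (x_mem h.hx a.1)).2
    have h3 : x a.1 = 0 := by
      rcases a with ⟨v, b⟩
      cases b
      · simpa [sv] using h0
      · simpa [sv] using h0
    rw [h3] at h2
    exact absurd h2 (by decide)
  · obtain ⟨i, h2, h3, h4, h5⟩ := sv_pos h _ h0
    exact ⟨i, h2, h3, Or.inl ⟨h4, h5⟩⟩

theorem uu_mono {x : P → ℤ} {y : P → ℝ} (hy : ∀ i < Fintype.card P, 0 < gp x y i) :
    ∀ i j : ℕ, i < j → j ≤ Fintype.card P → uu x y i < uu x y j := by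
  intro i j hij
  induction j, hij using Nat.le_induction with
  | base =>
    intro hj
    have := hy i hj
    rw [gp] at this
    linarith
  | succ j hj ih =>
    intro hj'
    have := hy j hj'
    rw [gp] at this
    have := ih (by omega)
    linarith

theorem uu_zero (x : P → ℤ) (y : P → ℝ) : uu x y 0 = 0 := by
  rw [uu, if_pos rfl]

theorem uu_nonneg {x : P → ℤ} {y : P → ℝ} (hy : ∀ i < Fintype.card P, 0 < gp x y i) (i : ℕ)
    (hi : i ≤ Fintype.card P) : 0 ≤ uu x y i := by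
  rcases Nat.eq_zero_or_pos i with rfl | h
  · rw [uu_zero]
  · have := uu_mono hy 0 i h hi
    rw [uu_zero] at this
    exact this.le

theorem uu_pos {x : P → ℤ} {y : P → ℝ} (hy : ∀ i < Fintype.card P, 0 < gp x y i) (i : ℕ)
    (h1 : 1 ≤ i) (hi : i ≤ Fintype.card P) : 0 < uu x y i := by
  have := uu_mono hy 0 i h1 hi
  rwa [uu_zero] at this

theorem mem_Ch_iff {x : P → ℤ} (h : LabOK x) (y : P → ℝ) :
    y ∈ Ch x ↔ ∀ i < Fintype.card P, 0 < gp x y i := by
  refine ⟨fun hy i hi => h.l3 y hy i hi, fun hy => ?_⟩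
  intro a b hab
  obtain ⟨i, hi1, hi2, hi3⟩ := sv_cases h a
  obtain ⟨j, hj1, hj2, hj3⟩ := sv_cases h b
  rcases hi3 with ⟨p1, p2⟩ | ⟨p1, p2⟩ <;> rcases hj3 with ⟨q1, q2⟩ | ⟨q1, q2⟩
  · rw [p2, q2]
    exact uu_mono hy i j (by omega) hj2
  · exfalso
    omega
  · rw [p2, q2]
    have u1 := uu_pos hy i hi1 hi2
    have u2 := uu_pos hy j hj1 hj2
    linarith
  · rw [p2, q2]
    have := uu_mono hy j i (by omega) hi2
    linarith

theorem lab_ne {x : P → ℤ} (h : LabOK x) {i j : ℕ} (hi : 1 ≤ i) (hi' : i ≤ Fintype.card P)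
    (hj : 1 ≤ j) (hj' : j ≤ Fintype.card P) (hij : i ≠ j) :
    (lab x (2 * (i : ℤ) - 1)).1 ≠ (lab x (2 * (j : ℤ) - 1)).1 := by
  intro he
  have h1 := h.l1 _ (level_mem hi hi')
  have h2 := h.l1 _ (level_mem hj hj')
  have abs1 : ∀ a : P × Bool, |sv x a| = |x a.1| := by
    rintro ⟨v, b⟩
    cases b <;> simp [sv]
  have h3 : |2 * (i : ℤ) - 1| = |2 * (j : ℤ) - 1| := by
    rw [← h1, ← h2, abs1, abs1, he]
  rw [abs_of_pos (by omega), abs_of_pos (by omega)] at h3
  omega

/-- the sign of a label -/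
def sg (a : P × Bool) : ℝ := if a.2 then 1 else -1

theorem sg_cases (a : P × Bool) : sg a = 1 ∨ sg a = -1 := by
  rcases a with ⟨v, b⟩
  cases b <;> simp [sg]

theorem sv_eq (y : P → ℝ) (a : P × Bool) : sv y a = sg a * y a.1 := by
  rcases a with ⟨v, b⟩
  cases b <;> simp [sv, sg]

theorem uu_update_ne {x : P → ℤ} (h : LabOK x) {k i : ℕ} (hk : k + 1 ≤ Fintype.card P)
    (hi : i ≤ Fintype.card P) (hne : i ≠ k + 1) (y : P → ℝ) (t : ℝ) :
    uu x (Function.update y (lab x (2 * ((k + 1 : ℕ) : ℤ) - 1)).1 t) i = uu x y i := by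
  rcases Nat.eq_zero_or_pos i with rfl | h0
  · rw [uu_zero, uu_zero]
  · rw [uu, uu, if_neg (by omega), if_neg (by omega), sv_eq, sv_eq,
      Function.update_of_ne (lab_ne h h0 hi (by omega) hk hne)]

theorem uu_update_eq {x : P → ℤ} {k : ℕ} (y : P → ℝ) (t : ℝ) :
    uu x (Function.update y (lab x (2 * ((k + 1 : ℕ) : ℤ) - 1)).1 t) (k + 1) =
      sg (lab x (2 * ((k + 1 : ℕ) : ℤ) - 1)) * t := by
  rw [uu, if_neg (by omega), sv_eq, Function.update_self]

theorem meas_uu (x : P → ℤ) (i : ℕ) : Measurable fun y : P → ℝ => uu x y i := by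
  unfold uu
  by_cases h : i = 0
  · simp only [if_pos h]
    exact measurable_const
  · simp only [if_neg h, sv_eq]
    exact measurable_const.mul (measurable_pi_apply _)

theorem meas_gp (x : P → ℤ) (i : ℕ) : Measurable fun y : P → ℝ => gp x y i :=
  (meas_uu x (i + 1)).sub (meas_uu x i)

theorem meas_Ch {x : P → ℤ} (h : LabOK x) : MeasurableSet (Ch x) := by
  have : Ch x = ⋂ i ∈ Finset.range (Fintype.card P), {y | 0 < gp x y i} := by
    ext y
    rw [mem_Ch_iff h]
    simp
  rw [this]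
  exact Finset.measurableSet_biInter _ fun i _ => measurableSet_lt measurable_const (meas_gp x i)

/-! ### the density on the lines -/

theorem rho_line {ρ : (P → ℝ) → ℝ} (hρ : Sy1 ρ) (y : P → ℝ) (w : P) (t1 t2 : ℝ)
    (h : |t1| ≤ |t2|) : ρ (Function.update y w t2) ≤ ρ (Function.update y w t1) := by
  have hneg : ρ (Function.update y w (-t2)) = ρ (Function.update y w t2) := by
    refine hρ.inv (Equiv.refl P) _ _ fun i => ?_
    rw [Equiv.refl_apply]
    by_cases hi : i = w
    · subst hi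
      rw [Function.update_self, Function.update_self, abs_neg]
    · rw [Function.update_of_ne hi, Function.update_of_ne hi]
  have habs : ∀ t, ρ (Function.update y w |t|) = ρ (Function.update y w t) := by
    intro t
    refine hρ.inv (Equiv.refl P) _ _ fun i => ?_
    rw [Equiv.refl_apply]
    by_cases hi : i = w
    · subst hi
      rw [Function.update_self, Function.update_self, abs_abs]
    · rw [Function.update_of_ne hi, Function.update_of_ne hi]
  rcases h.eq_or_lt with he | hlt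
  · rw [← habs t1, ← habs t2, he]
  · have ht2 : 0 < |t2| := lt_of_le_of_lt (abs_nonneg _) hlt
    have ht20 : t2 ≠ 0 := abs_pos.1 ht2
    have hr : |t1 / t2| < 1 := by
      rw [abs_div, div_lt_one ht2]
      exact hlt
    rw [abs_lt] at hr
    set θ : ℝ := (1 - t1 / t2) / 2 with hθ
    have h0 : 0 < θ := by rw [hθ]; linarith [hr.2]
    have h1 : θ < 1 := by rw [hθ]; linarith [hr.1]
    have hl := hρ.logc (Function.update y w t2) (Function.update y w (-t2)) θ h0 h1
    rw [hneg, ← Real.rpow_add_of_nonneg (hρ.nonneg _) (by linarith) h0.le,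
      show 1 - θ + θ = 1 by ring, Real.rpow_one] at hl
    have he : (1 - θ) • Function.update y w t2 + θ • Function.update y w (-t2) =
        Function.update y w t1 := by
      funext i
      rw [Pi.add_apply, Pi.smul_apply, Pi.smul_apply, smul_eq_mul, smul_eq_mul]
      by_cases hi : i = w
      · subst hi
        rw [Function.update_self, Function.update_self, Function.update_self, hθ]
        field_simp
        ring
      · rw [Function.update_of_ne hi, Function.update_of_ne hi, Function.update_of_ne hi]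
        ring
    rwa [he] at hl

/-! ### the two integrands on the lines -/

theorem mem_line {x : P → ℤ} (h : LabOK x) {k : ℕ} (hk : k + 1 < Fintype.card P) (y : P → ℝ)
    (t0 t : ℝ) (h0 : Function.update y (lab x (2 * ((k + 1 : ℕ) : ℤ) - 1)).1 t0 ∈ Ch x) :
    0 ≤ uu x y k ∧ (Function.update y (lab x (2 * ((k + 1 : ℕ) : ℤ) - 1)).1 t ∈ Ch x ↔
      t ∈ TT (sg (lab x (2 * ((k + 1 : ℕ) : ℤ) - 1))) (uu x y k) (uu x y (k + 2))) := by
  have hn : ∀ i, i ≤ Fintype.card P → i ≠ k + 1 → ∀ s : ℝ,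
      uu x (Function.update y (lab x (2 * ((k + 1 : ℕ) : ℤ) - 1)).1 s) i = uu x y i :=
    fun i hi hne s => uu_update_ne h hk.le hi hne y s
  have h0' := (mem_Ch_iff h _).1 h0
  constructor
  · have := uu_nonneg h0' k (by omega)
    rwa [hn k (by omega) (by omega)] at this
  · rw [mem_Ch_iff h]
    have hg1 : gp x (Function.update y (lab x (2 * ((k + 1 : ℕ) : ℤ) - 1)).1 t) k =
        sg (lab x (2 * ((k + 1 : ℕ) : ℤ) - 1)) * t - uu x y k := by
      rw [gp, uu_update_eq, hn k (by omega) (by omega)]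
    have hg2 : gp x (Function.update y (lab x (2 * ((k + 1 : ℕ) : ℤ) - 1)).1 t) (k + 1) =
        uu x y (k + 2) - sg (lab x (2 * ((k + 1 : ℕ) : ℤ) - 1)) * t := by
      rw [gp, uu_update_eq, show k + 1 + 1 = k + 2 by ring, hn (k + 2) (by omega) (by omega)]
    constructor
    · intro hh
      have a1 := hh k (by omega)
      have a2 := hh (k + 1) hk
      rw [hg1] at a1
      rw [hg2] at a2
      exact ⟨by linarith, by linarith⟩
    · rintro ⟨a1, a2⟩ i hi
      by_cases h1 : i = k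
      · rw [h1, hg1]
        linarith
      · by_cases h2 : i = k + 1
        · rw [h2, hg2]
          linarith
        · have := h0' i hi
          rw [gp, hn (i + 1) (by omega) (by omega), hn i (by omega) h2] at this ⊢
          exact this

/-- comparison of two integrals over the chamber, from a comparison on the lines -/
theorem fib {x : P → ℤ} (h : LabOK x) {k : ℕ} (hk : k + 1 < Fintype.card P)
    (F G : (P → ℝ) → ℝ) (hF : Measurable F) (hG : Measurable G) (C : ℝ≥0∞)
    (hFG : ∀ y : P → ℝ, 0 ≤ uu x y k →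
      (∃ t0, Function.update y (lab x (2 * ((k + 1 : ℕ) : ℤ) - 1)).1 t0 ∈ Ch x) →
      ∫⁻ t, (TT (sg (lab x (2 * ((k + 1 : ℕ) : ℤ) - 1))) (uu x y k) (uu x y (k + 2))).indicator
          (fun t => ENNReal.ofReal
            (F (Function.update y (lab x (2 * ((k + 1 : ℕ) : ℤ) - 1)).1 t))) t ≤
        C * ∫⁻ t, (TT (sg (lab x (2 * ((k + 1 : ℕ) : ℤ) - 1))) (uu x y k)
          (uu x y (k + 2))).indicator
          (fun t => ENNReal.ofReal
            (G (Function.update y (lab x (2 * ((k + 1 : ℕ) : ℤ) - 1)).1 t))) t) :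
    ∫⁻ y in Ch x, ENNReal.ofReal (F y) ≤ C * ∫⁻ y in Ch x, ENNReal.ofReal (G y) := by
  have hC := meas_Ch h
  set w := (lab x (2 * ((k + 1 : ℕ) : ℤ) - 1)).1 with hw
  rw [← lintegral_indicator hC, ← lintegral_indicator hC, ← lintegral_const_mul _
    ((by fun_prop : Measurable fun y => ENNReal.ofReal (G y)).indicator hC), volume_pi]
  refine lintegral_le_of_lmarginal_le (μ := fun _ : P => (volume : Measure ℝ)) {w}
    ((by fun_prop : Measurable fun y => ENNReal.ofReal (F y)).indicator hC)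
    (((by fun_prop : Measurable fun y => ENNReal.ofReal (G y)).indicator hC).const_mul C) ?_
  rw [lmarginal_singleton, lmarginal_singleton]
  intro y
  have hm2 : Measurable fun t : ℝ =>
      (Ch x).indicator (fun y => ENNReal.ofReal (G y)) (Function.update y w t) :=
    ((by fun_prop : Measurable fun y => ENNReal.ofReal (G y)).indicator hC).comp
      (measurable_update y)
  simp only
  rw [lintegral_const_mul C hm2]
  by_cases hne : ∃ t0, Function.update y w t0 ∈ Ch x
  · obtain ⟨t0, ht0⟩ := hne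
    have hm := fun t => mem_line h hk y t0 t ht0
    have hkey := hFG y (hm 0).1 ⟨t0, ht0⟩
    have e : ∀ (H : (P → ℝ) → ℝ) (t : ℝ),
        (Ch x).indicator (fun y => ENNReal.ofReal (H y)) (Function.update y w t) =
        (TT (sg (lab x (2 * ((k + 1 : ℕ) : ℤ) - 1))) (uu x y k) (uu x y (k + 2))).indicator
          (fun t => ENNReal.ofReal (H (Function.update y w t))) t := by
      intro H t
      by_cases ht : Function.update y w t ∈ Ch x
      · rw [indicator_of_mem ht, indicator_of_mem ((hm t).2.1 ht)]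
      · rw [indicator_of_notMem ht, indicator_of_notMem fun hh => ht ((hm t).2.2 hh)]
    rw [lintegral_congr (e F), lintegral_congr (e G)]
    exact hkey
  · have e : ∀ t : ℝ, (Ch x).indicator (fun y => ENNReal.ofReal (F y))
        (Function.update y w t) = 0 := fun t => indicator_of_notMem (fun hh => hne ⟨t, hh⟩) _
    rw [lintegral_congr e, lintegral_zero]
    exact zero_le

/-! ### finiteness and real integrals -/

theorem gp_le {x : P → ℤ} (h : LabOK x) {y : P → ℝ} (hy : y ∈ Ch x) {k : ℕ}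
    (hk : k < Fintype.card P) : ∃ v : P, gp x y k ≤ |y v| := by
  refine ⟨(lab x (2 * ((k + 1 : ℕ) : ℤ) - 1)).1, ?_⟩
  have h0 := uu_nonneg ((mem_Ch_iff h y).1 hy) k hk.le
  have h1 : uu x y (k + 1) ≤ |y (lab x (2 * ((k + 1 : ℕ) : ℤ) - 1)).1| := by
    rw [uu, if_neg (by omega), sv_eq]
    refine le_trans (le_abs_self _) ?_
    rw [abs_mul]
    rcases sg_cases (lab x (2 * ((k + 1 : ℕ) : ℤ) - 1)) with e | e <;> rw [e] <;> simp
  rw [gp]
  linarith

theorem sq_le_sum (y : P → ℝ) (v : P) : y v ^ 2 ≤ ∑ v, y v ^ 2 :=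
  Finset.single_le_sum (f := fun v => y v ^ 2) (fun i _ => sq_nonneg _) (Finset.mem_univ v)

theorem fin_gp {ρ : (P → ℝ) → ℝ} {s : ℝ} (hρ : Sy1 ρ) (hM : Mom2 ρ s) {x : P → ℤ} (h : LabOK x)
    {k l : ℕ} (hk : k < Fintype.card P) (hl : l < Fintype.card P) :
    ∫⁻ y in Ch x, ENNReal.ofReal (gp x y k * gp x y l * ρ y) ≠ ∞ := by
  have hC := meas_Ch h
  have hm := hρ.meas
  have h1 : ∫⁻ y in Ch x, ENNReal.ofReal (gp x y k * gp x y l * ρ y) ≤
      ∫⁻ y in Ch x, ∑ v, ENNReal.ofReal (y v ^ 2 * ρ y) := by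
    refine setLIntegral_mono' hC fun y hy => ?_
    rw [← ENNReal.ofReal_sum_of_nonneg fun i _ => mul_nonneg (sq_nonneg _) (hρ.nonneg y),
      ← Finset.sum_mul]
    apply ENNReal.ofReal_le_ofReal
    apply mul_le_mul_of_nonneg_right _ (hρ.nonneg y)
    obtain ⟨v, hv⟩ := gp_le h hy hk
    obtain ⟨w, hw⟩ := gp_le h hy hl
    have g1 := h.l3 y hy k hk
    have g2 := h.l3 y hy l hl
    have s1 := sq_le_sum y v
    have s2 := sq_le_sum y w
    rw [← sq_abs] at s1 s2
    have := mul_le_mul hv hw g2.le (abs_nonneg _)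
    nlinarith [sq_nonneg (|y v| - |y w|)]
  have h2 : ∫⁻ y in Ch x, ∑ v, ENNReal.ofReal (y v ^ 2 * ρ y) ≤
      ∑ v : P, ENNReal.ofReal s := by
    refine le_trans (setLIntegral_le_lintegral _ _) ?_
    rw [lintegral_finsetSum _ fun v _ => by fun_prop]
    exact Finset.sum_le_sum fun v _ => hM v
  have h3 : ∑ v : P, ENNReal.ofReal s < ∞ := by
    rw [ENNReal.sum_lt_top]
    intro v _
    exact ENNReal.ofReal_lt_top
  exact (lt_of_le_of_lt (h1.trans h2) h3).ne

theorem qq_eq {ρ : (P → ℝ) → ℝ} (hρ : Sy1 ρ) {x : P → ℤ} (h : LabOK x)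
    {k l : ℕ} (hk : k < Fintype.card P) (hl : l < Fintype.card P) :
    qq ρ x k l = (∫⁻ y in Ch x, ENNReal.ofReal (gp x y k * gp x y l * ρ y)).toReal := by
  rw [qq, integral_eq_lintegral_of_nonneg_ae]
  · refine (ae_restrict_iff' (meas_Ch h)).2 (ae_of_all _ fun y hy => ?_)
    exact mul_nonneg (mul_nonneg (h.l3 y hy k hk).le (h.l3 y hy l hl).le) (hρ.nonneg y)
  · exact (((meas_gp x k).mul (meas_gp x l)).mul hρ.meas).aestronglyMeasurable

theorem qq_le {ρ : (P → ℝ) → ℝ} {s : ℝ} (hρ : Sy1 ρ) (hM : Mom2 ρ s) {x : P → ℤ} (h : LabOK x)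
    {k l k' l' c : ℕ} (hk : k < Fintype.card P) (hl : l < Fintype.card P)
    (hk' : k' < Fintype.card P) (hl' : l' < Fintype.card P)
    (hle : ∫⁻ y in Ch x, ENNReal.ofReal (gp x y k * gp x y l * ρ y) ≤
      (c : ℝ≥0∞) * ∫⁻ y in Ch x, ENNReal.ofReal (gp x y k' * gp x y l' * ρ y)) :
    qq ρ x k l ≤ c * qq ρ x k' l' := by
  rw [qq_eq hρ h hk hl, qq_eq hρ h hk' hl']
  have h1 := ENNReal.toReal_mono (ENNReal.mul_ne_top (ENNReal.natCast_ne_top c)
    (fin_gp hρ hM h hk' hl')) hle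
  rwa [ENNReal.toReal_mul, ENNReal.toReal_natCast] at h1

end lab

end GP2P

open GP2P in
theorem t_GP2 : S_RF → S_SPM → S_GP2 := by
  intro hRF _ P _ _ _ ρ s x k hρ hM hx hk
  have hL : LabOK x := by
    obtain ⟨_, l1, l2, _, _, _, _, _, _, l3, _⟩ := hRF P x 0 hx Fintype.card_pos
    exact ⟨hx, l1, l2, l3⟩
  have hn : ∀ (y : P → ℝ) (t : ℝ), ∀ i, i ≤ Fintype.card P → i ≠ k + 1 →
      uu x (Function.update y (lab x (2 * ((k + 1 : ℕ) : ℤ) - 1)).1 t) i = uu x y i :=
    fun y t i hi hne => uu_update_ne hL hk.le hi hne y t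
  have hg1 : ∀ (y : P → ℝ) (t : ℝ),
      gp x (Function.update y (lab x (2 * ((k + 1 : ℕ) : ℤ) - 1)).1 t) k =
      sg (lab x (2 * ((k + 1 : ℕ) : ℤ) - 1)) * t - uu x y k := fun y t => by
    rw [gp, uu_update_eq, hn y t k (by omega) (by omega)]
  have hg2 : ∀ (y : P → ℝ) (t : ℝ),
      gp x (Function.update y (lab x (2 * ((k + 1 : ℕ) : ℤ) - 1)).1 t) (k + 1) =
      uu x y (k + 2) - sg (lab x (2 * ((k + 1 : ℕ) : ℤ) - 1)) * t := fun y t => by
    rw [gp, uu_update_eq, show k + 1 + 1 = k + 2 by ring, hn y t (k + 2) (by omega) (by omega)]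
  have hms : ∀ i j, Measurable fun y : P → ℝ => gp x y i * gp x y j * ρ y := fun i j =>
    ((meas_gp x i).mul (meas_gp x j)).mul hρ.meas
  have hφm : ∀ y : P → ℝ, Measurable fun t : ℝ =>
      ρ (Function.update y (lab x (2 * ((k + 1 : ℕ) : ℤ) - 1)).1 t) := fun y =>
    hρ.meas.comp (measurable_update y)
  constructor
  · intro l hl h1 h2
    have := qq_le (c := 1) hρ hM hL (k := k) (l := l) (k' := k + 1) (l' := l) (by omega) hl hk hl ?_
    · rwa [Nat.cast_one, one_mul] at this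
    · refine fib hL hk _ _ (hms k l) (hms (k + 1) l) _ fun y hy ⟨t0, ht0⟩ => ?_
      have hgl : ∀ t : ℝ,
          gp x (Function.update y (lab x (2 * ((k + 1 : ℕ) : ℤ) - 1)).1 t) l = gp x y l := by
        intro t
        rw [gp, gp, hn y t (l + 1) (by omega) (by omega), hn y t l (by omega) (by omega)]
      have hg0 : 0 ≤ gp x y l := by
        rw [← hgl t0]
        exact (hL.l3 _ ht0 l hl).le
      have key := line_a (fun t => ρ (Function.update y (lab x (2 * ((k + 1 : ℕ) : ℤ) - 1)).1 t))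
        (hφm y) (fun t => hρ.nonneg _) (fun t1 t2 h => rho_line hρ y _ t1 t2 h)
        (sg (lab x (2 * ((k + 1 : ℕ) : ℤ) - 1))) (uu x y k) (uu x y (k + 2)) (gp x y l)
        (sg_cases _) hy hg0
      simp only [hg1, hg2, hgl]
      rw [Nat.cast_one, one_mul]
      exact key
  · have := qq_le (c := 8) hρ hM hL (k := k) (l := k) (k' := k) (l' := k + 1) (by omega) (by omega)
      (by omega) hk ?_
    · exact_mod_cast this
    · refine fib hL hk _ _ (hms k k) (hms k (k + 1)) _ fun y hy ⟨t0, ht0⟩ => ?_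
      have key := line_b (fun t => ρ (Function.update y (lab x (2 * ((k + 1 : ℕ) : ℤ) - 1)).1 t))
        (hφm y) (fun t => hρ.nonneg _) (fun t1 t2 h => rho_line hρ y _ t1 t2 h)
        (sg (lab x (2 * ((k + 1 : ℕ) : ℤ) - 1))) (uu x y k) (uu x y (k + 2))
        (sg_cases _) hy
      simp only [hg1, hg2]
      exact_mod_cast key

end Run7.h523.KF
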