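import Pool.Agent.Run7.h523.KF.Iface3

/-! Piece GSQ of project KF (helper523, MP_6d896a_gt). -/

set_option autoImplicit false

namespace Run7.h523.KF

theorem gsq_sum (c : ℝ) (m : ℕ) :
    ∑ i ∈ Finset.range m, (c - (i : ℝ)) = m * c - m * ((m : ℝ) - 1) / 2 := by
  induction m with
  | zero => simp
  | succ m ih =>
    rw [Finset.sum_range_succ, ih]
    push_cast
    ring

theorem t_GSQ : S_GSQ := by
  intro n q Q hn hQ hsym hq H1 H2 H3 H4 hCS l hl
  have hnl : (l : ℝ) < n := by exact_mod_cast hl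
  have hD0 : 0 ≤ q l l := hq l l
  have hlow : ∀ j k : ℕ, k + 1 + j = l → 1 / 8 * ((n : ℝ) - l) * q l l ≤ ((n : ℝ) - k) * q k l := by
    intro j
    induction j with
    | zero =>
      intro k hk
      rw [add_zero] at hk
      subst hk
      have h := H2 k hl
      push_cast
      linarith
    | succ j ih =>
      intro k hk
      have h1 := ih (k + 1) (by omega)
      have h2 := H1 k (by omega) l hl (by omega) (by omega)
      push_cast at h1
      linarith
  have hup : ∀ j k : ℕ, k = l + 1 + j → k < n → 1 / 8 * q l l ≤ q k l := by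
    intro j
    induction j with
    | zero =>
      intro k hk hkn
      rw [add_zero] at hk
      subst hk
      have h := H4 l hkn
      rw [hsym l (l + 1)] at h
      linarith
    | succ j ih =>
      intro k hk hkn
      have h1 := ih (l + 1 + j) rfl (by omega)
      have h2 := H3 (l + 1 + j) (by omega) l hl (by omega) (by omega)
      rw [show l + 1 + j + 1 = k by omega] at h2
      linarith
  obtain ⟨m, hm⟩ : ∃ m, n = l + 1 + m := ⟨n - (l + 1), by omega⟩
  have hmR : (n : ℝ) = l + 1 + m := by rw [hm]; push_cast; ring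
  have hsplit : ∑ k ∈ Finset.range n, ((n : ℝ) - k) * q k l =
      (∑ k ∈ Finset.range l, ((n : ℝ) - k) * q k l) + ((n : ℝ) - l) * q l l +
        ∑ i ∈ Finset.range m, ((n : ℝ) - (l + 1 + i : ℕ)) * q (l + 1 + i) l := by
    rw [show Finset.range n = Finset.range (l + 1 + m) by rw [← hm], Finset.sum_range_add,
      Finset.sum_range_succ]
  have hS1 : (l : ℝ) * (1 / 8 * ((n : ℝ) - l) * q l l) ≤
      ∑ k ∈ Finset.range l, ((n : ℝ) - k) * q k l := by
    have h := Finset.card_nsmul_le_sum (Finset.range l) (fun k => ((n : ℝ) - k) * q k l)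
      (1 / 8 * ((n : ℝ) - l) * q l l) (fun k hk => hlow (l - (k + 1)) k (by
        have := Finset.mem_range.1 hk
        omega))
    rw [Finset.card_range, nsmul_eq_mul] at h
    exact h
  have hS2 : (1 / 8 * q l l) * (m * ((n : ℝ) - l - 1) - m * ((m : ℝ) - 1) / 2) ≤
      ∑ i ∈ Finset.range m, ((n : ℝ) - (l + 1 + i : ℕ)) * q (l + 1 + i) l := by
    rw [← gsq_sum, Finset.mul_sum]
    refine Finset.sum_le_sum fun i hi => ?_
    have hi' := Finset.mem_range.1 hi
    have h := hup i (l + 1 + i) rfl (by omega)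
    have h0 : 0 ≤ (n : ℝ) - (l + 1 + i : ℕ) := by
      have : ((l + 1 + i : ℕ) : ℝ) ≤ n := by exact_mod_cast (by omega : l + 1 + i ≤ n)
      linarith
    have h3 := mul_le_mul_of_nonneg_left h h0
    have h4 : 1 / 8 * q l l * ((n : ℝ) - l - 1 - i) =
        ((n : ℝ) - (l + 1 + i : ℕ)) * (1 / 8 * q l l) := by
      push_cast
      ring
    rw [h4]
    exact h3
  have hsum : (n : ℝ) * ((n : ℝ) - l) / 16 * q l l ≤
      ∑ k ∈ Finset.range n, ((n : ℝ) - k) * q k l := by
    rw [hsplit]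
    have hl0 : (0 : ℝ) ≤ l := Nat.cast_nonneg l
    have hm0 : (0 : ℝ) ≤ m := Nat.cast_nonneg m
    have key : (n : ℝ) * ((n : ℝ) - l) / 16 * q l l ≤ (l : ℝ) * (1 / 8 * ((n : ℝ) - l) * q l l) +
        ((n : ℝ) - l) * q l l +
        (1 / 8 * q l l) * (m * ((n : ℝ) - l - 1) - m * ((m : ℝ) - 1) / 2) := by
      rw [hmR]
      have e : (l : ℝ) * (1 / 8 * ((l : ℝ) + 1 + m - l) * q l l) + ((l : ℝ) + 1 + m - l) * q l l +
          (1 / 8 * q l l) * (m * ((l : ℝ) + 1 + m - l - 1) - m * ((m : ℝ) - 1) / 2) -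
          ((l : ℝ) + 1 + m) * ((l : ℝ) + 1 + m - l) / 16 * q l l =
          q l l * ((m + 1) * (l + 15) / 16) := by ring
      have : 0 ≤ q l l * (((m : ℝ) + 1) * (l + 15) / 16) := by positivity
      linarith
    linarith
  have hCl := hCS l hl
  have hp1 : 0 < (n : ℝ) * ((n : ℝ) - l) := by
    have : (0 : ℝ) < n := by exact_mod_cast hn
    exact mul_pos this (by linarith)
  have hp : 0 < (n : ℝ) ^ 2 * ((n : ℝ) - l) ^ 2 := by
    rw [← mul_pow]
    positivity
  rw [le_div_iff₀ hp]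
  rcases hD0.eq_or_lt with h0 | h0
  · rw [← h0]
    simpa using hQ
  · have h1 : ((n : ℝ) * ((n : ℝ) - l) / 16 * q l l) ^ 2 ≤ Q * q l l := by
      refine le_trans ?_ hCl
      exact pow_le_pow_left₀ (by positivity) hsum 2
    have h2 : (((n : ℝ) * ((n : ℝ) - l)) ^ 2 / 256 * q l l) * q l l ≤ Q * q l l := by
      have e : (((n : ℝ) * ((n : ℝ) - l)) ^ 2 / 256 * q l l) * q l l =
        ((n : ℝ) * ((n : ℝ) - l) / 16 * q l l) ^ 2 := by ring
      rw [e]
      exact h1
    have h3 := le_of_mul_le_mul_right h2 h0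
    have e : q l l * ((n : ℝ) ^ 2 * ((n : ℝ) - l) ^ 2) =
      256 * (((n : ℝ) * ((n : ℝ) - l)) ^ 2 / 256 * q l l) := by ring
    rw [e]
    linarith

end Run7.h523.KF
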